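import Pool.Agent.W2helper22.MG.Stm

/-!
# MG, piece AVG: the final averaging argument
-/

set_option autoImplicit false

namespace Pool.Agent.W2helper51.MG

open Finset
open Pool.Agent.W2helper86.LG (prob)
open Pool.Agent.W2helper22.MG

/-- the probability as a sum -/
theorem prob_eq {S : Type} [Fintype S] (p : S → Bool) :
    prob p = (∑ s, (if p s = true then (1 : ℝ) else 0)) / Fintype.card S := by
  unfold prob
  rw [sum_boole]

theorem cnt_eq {b B M : ℕ} (π : Fin B → Fin b → Fin M) (f : (Fin b → Bool) → Bool)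
    (x : Fin M → Bool) :
    (cnt π f x : ℝ) = ∑ i : Fin B, (if f (fun j => x (π i j)) = true then (1 : ℝ) else 0) := by
  unfold Pool.Agent.W2helper22.MG.cnt
  rw [sum_boole]

/-- the identity in the reals -/
theorem idR {b K : ℕ} (F : Fin K → (Fin b → Bool) → Bool) (sgn : Fin K → ℤ)
    (c : (Fin b → Bool) → Bool)
    (h : ∀ y, (if c y = true then (1 : ℤ) else 0) = ∑ j, sgn j * (if F j y = true then 1 else 0))
    (y : Fin b → Bool) :
    (if c y = true then (1 : ℝ) else 0) =
      ∑ j, (sgn j : ℝ) * (if F j y = true then (1 : ℝ) else 0) := by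
  have h1 := congrArg (fun z : ℤ => (z : ℝ)) (h y)
  simp only [Int.cast_sum, Int.cast_mul, Int.cast_ite, Int.cast_one, Int.cast_zero] at h1
  exact h1

theorem cnt_sum {b B M K : ℕ} (π : Fin B → Fin b → Fin M) (F : Fin K → (Fin b → Bool) → Bool)
    (sgn : Fin K → ℤ) (c : (Fin b → Bool) → Bool)
    (h : ∀ y, (if c y = true then (1 : ℤ) else 0) = ∑ j, sgn j * (if F j y = true then 1 else 0))
    (x : Fin M → Bool) :
    (cnt π c x : ℝ) = ∑ j, (sgn j : ℝ) * (cnt π (F j) x : ℝ) := by
  rw [cnt_eq]
  simp_rw [cnt_eq, mul_sum]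
  rw [sum_comm]
  exact sum_congr rfl fun i _ => idR F sgn c h _

theorem prob_sum {b K : ℕ} (F : Fin K → (Fin b → Bool) → Bool)
    (sgn : Fin K → ℤ) (c : (Fin b → Bool) → Bool)
    (h : ∀ y, (if c y = true then (1 : ℤ) else 0) = ∑ j, sgn j * (if F j y = true then 1 else 0)) :
    prob c = ∑ j, (sgn j : ℝ) * prob (F j) := by
  rw [prob_eq]
  simp_rw [prob_eq, ← mul_div_assoc]
  rw [← sum_div]
  congr 1
  simp_rw [mul_sum]
  rw [sum_comm]
  exact sum_congr rfl fun i _ => idR F sgn c h _

theorem prob_nonneg {S : Type} [Fintype S] (p : S → Bool) : 0 ≤ prob p := by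
  unfold prob; positivity

theorem prob_le_one {S : Type} [Fintype S] (p : S → Bool) : prob p ≤ 1 := by
  unfold prob
  apply div_le_one_of_le₀ _ (by positivity)
  exact_mod_cast card_le_univ _

theorem cnt_le {b B M : ℕ} (π : Fin B → Fin b → Fin M) (f : (Fin b → Bool) → Bool)
    (x : Fin M → Bool) : (cnt π f x : ℝ) ≤ B := by
  unfold Pool.Agent.W2helper22.MG.cnt
  have := card_le_univ (univ.filter (fun i : Fin B => f (fun j => x (π i j)) = true))
  rw [Fintype.card_fin] at this
  exact_mod_cast this

theorem avg : P_AVG := by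
  intro S _ _ b B M K π G F sgn c β δ hB hβ hδ hs h hbad
  have hS : (0 : ℝ) < Fintype.card S := by exact_mod_cast Fintype.card_pos
  have hB' : (0 : ℝ) < B := by exact_mod_cast hB
  have h1 : prob (fun p : S × Fin B => c (fun j => G p.1 (π p.2 j))) =
      (∑ s, (cnt π c (G s) : ℝ)) / (Fintype.card S * B) := by
    rw [prob_eq, Fintype.card_prod, Fintype.card_fin, Nat.cast_mul]
    congr 1
    rw [Fintype.sum_prod_type]
    exact sum_congr rfl fun s _ => (cnt_eq π c (G s)).symm
  have h2 : prob (fun p : S × Fin B => c (fun j => G p.1 (π p.2 j))) - prob c =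
      (∑ s, ((cnt π c (G s) : ℝ) - prob c * B)) / (Fintype.card S * B) := by
    rw [h1, sum_sub_distrib, sum_const, card_univ, nsmul_eq_mul]
    field_simp
  have h3 : ∀ s : S, |(cnt π c (G s) : ℝ) - prob c * B| ≤
      K * δ * B + B * (if decide (∃ j, δ * B < |(cnt π (F j) (G s) : ℝ) - prob (F j) * B|) = true
        then (1 : ℝ) else 0) := by
    intro s
    by_cases hg : ∃ j, δ * B < |(cnt π (F j) (G s) : ℝ) - prob (F j) * B|
    · rw [if_pos (by simpa using hg), mul_one]
      have e1 : |(cnt π c (G s) : ℝ) - prob c * B| ≤ B := by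
        rw [abs_le]
        have a1 := cnt_le π c (G s)
        have a2 : (0 : ℝ) ≤ cnt π c (G s) := by positivity
        have a3 : prob c * B ≤ B := by
          have := mul_le_mul_of_nonneg_right (prob_le_one c) hB'.le
          simpa using this
        have a4 : 0 ≤ prob c * B := mul_nonneg (prob_nonneg c) hB'.le
        constructor <;> linarith
      have e2 : 0 ≤ (K : ℝ) * δ * B := by positivity
      linarith
    · rw [if_neg (by simpa using hg), mul_zero, add_zero]
      push Not at hg
      have e1 : (cnt π c (G s) : ℝ) - prob c * B =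
          ∑ j, (sgn j : ℝ) * ((cnt π (F j) (G s) : ℝ) - prob (F j) * B) := by
        rw [cnt_sum π F sgn c h, prob_sum F sgn c h, sum_mul, ← sum_sub_distrib]
        exact sum_congr rfl fun j _ => by ring
      rw [e1]
      refine (abs_sum_le_sum_abs _ _).trans ?_
      have e2 : ∀ j ∈ (univ : Finset (Fin K)),
          |(sgn j : ℝ) * ((cnt π (F j) (G s) : ℝ) - prob (F j) * B)| ≤ δ * B := by
        intro j _
        rw [abs_mul]
        have : |(sgn j : ℝ)| = 1 := by
          rcases hs j with h' | h' <;> rw [h'] <;> simp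
        rw [this, one_mul]
        exact hg j
      refine (sum_le_sum e2).trans ?_
      rw [sum_const, card_univ, Fintype.card_fin, nsmul_eq_mul]
      exact le_of_eq (by ring)
  rw [h2, abs_div, abs_of_pos (mul_pos hS hB'), div_le_iff₀ (mul_pos hS hB')]
  refine (abs_sum_le_sum_abs _ _).trans ((sum_le_sum fun s _ => h3 s).trans ?_)
  rw [sum_add_distrib, sum_const, card_univ, nsmul_eq_mul, ← mul_sum]
  rw [prob_eq, div_le_iff₀ hS] at hbad
  have h4 := mul_le_mul_of_nonneg_left hbad hB'.le
  calc (Fintype.card S : ℝ) * (K * δ * B) + B * ∑ s : S,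
        (if decide (∃ j, δ * B < |(cnt π (F j) (G s) : ℝ) - prob (F j) * B|) = true
          then (1 : ℝ) else 0)
      ≤ (Fintype.card S : ℝ) * (K * δ * B) + B * (β * Fintype.card S) := by gcongr
    _ = (β + K * δ) * (Fintype.card S * B) := by ring

end Pool.Agent.W2helper51.MG
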